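import Mathlib

set_option autoImplicit false

open Finset Classical

namespace Pool.Agent.H606AC

variable {V : Type} [Fintype V] {G : SimpleGraph V}

/-- cut-based connectivity of a vertex set -/
def CS (G : SimpleGraph V) (A : Finset V) : Prop :=
  A.Nonempty ∧ ∀ X : Finset V, X ⊆ A → X.Nonempty → X ≠ A →
    ∃ a ∈ X, ∃ b ∈ A, b ∉ X ∧ G.Adj a b

lemma CS_iff (A : Finset V) : CS G A ↔ (G.induce (A : Set V)).Connected := by
  constructor
  · rintro ⟨hne, h⟩
    obtain ⟨x0, hx0⟩ := hne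
    rw [SimpleGraph.connected_iff]
    refine ⟨?_, ⟨⟨x0, hx0⟩⟩⟩
    intro u v
    let X : Finset V := A.filter (fun w => ∃ hw : w ∈ A, (G.induce (A : Set V)).Reachable u ⟨w, hw⟩)
    have hXA : X = A := by
      by_contra hne
      obtain ⟨a, ha, b, hb, hbX, hadj⟩ := h X (filter_subset _ _)
        ⟨u.1, mem_filter.mpr ⟨u.2, u.2, SimpleGraph.Reachable.refl _⟩⟩ hne
      obtain ⟨haA, haA', hr⟩ := mem_filter.mp ha
      apply hbX
      refine mem_filter.mpr ⟨hb, hb, hr.trans ?_⟩
      exact SimpleGraph.Adj.reachable (by simpa using hadj)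
    have hv : v.1 ∈ X := by rw [hXA]; exact v.2
    obtain ⟨_, hv', hr⟩ := mem_filter.mp hv
    exact hr
  · intro hc
    have hne := hc.nonempty
    obtain ⟨⟨x0, hx0⟩⟩ := hne
    refine ⟨⟨x0, hx0⟩, ?_⟩
    intro X hXA hX hXne
    obtain ⟨x, hx⟩ := hX
    have : ∃ y ∈ A, y ∉ X := by
      by_contra hcon
      push Not at hcon
      exact hXne (subset_antisymm hXA hcon)
    obtain ⟨y, hyA, hyX⟩ := this
    obtain ⟨p⟩ := hc.preconnected ⟨x, hXA hx⟩ ⟨y, hyA⟩
    obtain ⟨d, hd, hd1, hd2⟩ := p.exists_boundary_dart {w | w.1 ∈ X} hx hyX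
    exact ⟨d.fst.1, hd1, d.snd.1, d.snd.2, hd2, by simpa using d.adj⟩

lemma CS.union {A B : Finset V} (hA : CS G A) (hB : CS G B) {a b : V} (ha : a ∈ A) (hb : b ∈ B)
    (hab : G.Adj a b) : CS G (A ∪ B) := by
  refine ⟨hA.1.mono subset_union_left, ?_⟩
  intro X hX hXn hXne
  by_cases h1 : (X ∩ A).Nonempty ∧ X ∩ A ≠ A
  · obtain ⟨c, hc, d, hd, hdX, hcd⟩ := hA.2 (X ∩ A) inter_subset_right h1.1 h1.2
    refine ⟨c, (mem_inter.mp hc).1, d, mem_union_left _ hd, ?_, hcd⟩
    intro hdX'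
    exact hdX (mem_inter.mpr ⟨hdX', hd⟩)
  by_cases h2 : (X ∩ B).Nonempty ∧ X ∩ B ≠ B
  · obtain ⟨c, hc, d, hd, hdX, hcd⟩ := hB.2 (X ∩ B) inter_subset_right h2.1 h2.2
    refine ⟨c, (mem_inter.mp hc).1, d, mem_union_right _ hd, ?_, hcd⟩
    intro hdX'
    exact hdX (mem_inter.mpr ⟨hdX', hd⟩)
  push Not at h1 h2
  have hXe : X = (X ∩ A) ∪ (X ∩ B) := by
    rw [← inter_union_distrib_left]
    exact (inter_eq_left.mpr hX).symm
  rcases (X ∩ A).eq_empty_or_nonempty with hXA | hXA
  · rcases (X ∩ B).eq_empty_or_nonempty with hXB | hXB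
    · rw [hXA, hXB] at hXe
      simp at hXe
      exact absurd hXn (by rw [hXe]; simp)
    · have hBe := h2 hXB
      refine ⟨b, ?_, a, mem_union_left _ ha, ?_, hab.symm⟩
      · have : b ∈ X ∩ B := by rw [hBe]; exact hb
        exact (mem_inter.mp this).1
      · intro haX
        have : a ∈ X ∩ A := mem_inter.mpr ⟨haX, ha⟩
        rw [hXA] at this
        simp at this
  · have hAe := h1 hXA
    have haX : a ∈ X := by
      have : a ∈ X ∩ A := by rw [hAe]; exact ha
      exact (mem_inter.mp this).1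
    rcases (X ∩ B).eq_empty_or_nonempty with hXB | hXB
    · refine ⟨a, haX, b, mem_union_right _ hb, ?_, hab⟩
      intro hbX
      have : b ∈ X ∩ B := mem_inter.mpr ⟨hbX, hb⟩
      rw [hXB] at this
      simp at this
    · exfalso
      apply hXne
      rw [hXe, hAe, h2 hXB]

lemma CS_singleton (v : V) : CS G {v} := by
  refine ⟨singleton_nonempty v, ?_⟩
  intro X hX hXn hXne
  exact absurd (hXn.subset_singleton_iff.mp hX) hXne

lemma CS.insert {A : Finset V} (hA : CS G A) {a w : V} (ha : a ∈ A) (haw : G.Adj a w) :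
    CS G (insert w A) := by
  have := hA.union (CS_singleton (G := G) w) ha (mem_singleton_self w) haw
  rwa [union_comm, ← insert_eq] at this

lemma not_CS_of_sep {A B : Finset V} (hA : A.Nonempty) (hB : B.Nonempty) (hd : Disjoint A B)
    (hn : ∀ a ∈ A, ∀ b ∈ B, ¬ G.Adj a b) : ¬ CS G (A ∪ B) := by
  intro h
  obtain ⟨a, ha, b, hb, hbA, hab⟩ := h.2 A subset_union_left hA (by
    intro he
    obtain ⟨b, hb⟩ := hB
    have : b ∈ A := by rw [he]; exact mem_union_right _ hb
    exact (disjoint_left.mp hd) this hb)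
  rcases mem_union.mp hb with h1 | h1
  · exact hbA h1
  · exact hn a ha b h1 hab

/-- a connected set contained in the union of two separated sets lies in one of them -/
lemma CS.sub_of_sep {A B C : Finset V} (hC : CS G C) (hCs : C ⊆ A ∪ B)
    (hn : ∀ a ∈ A, ∀ b ∈ B, ¬ G.Adj a b) (hne : (C ∩ A).Nonempty) : C ⊆ A := by
  by_contra hcon
  have hne' : C ∩ A ≠ C := by
    intro h
    exact hcon (inter_eq_left.mp h)
  obtain ⟨a, ha, b, hb, hbX, hab⟩ := hC.2 (C ∩ A) inter_subset_left hne hne'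
  have hbA : b ∉ A := fun h => hbX (mem_inter.mpr ⟨hb, h⟩)
  have hbB : b ∈ B := by
    rcases mem_union.mp (hCs hb) with h | h
    · exact absurd h hbA
    · exact h
  exact hn a (mem_inter.mp ha).2 b hbB hab

/-- T1: removal of a vertex outside a given connected proper subset -/
lemma exists_removable {H A : Finset V} (hH : CS G H) (hA : CS G A) (hAH : A ⊆ H) (hne : A ≠ H) :
    ∃ v ∈ H, v ∉ A ∧ CS G (H.erase v) := by
  let 𝒮 : Finset (Finset V) := univ.filter (fun B => CS G B ∧ A ⊆ B ∧ B ⊆ H ∧ B ≠ H)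
  have h𝒮 : 𝒮.Nonempty := ⟨A, by simp [𝒮, hA, hAH, hne]⟩
  obtain ⟨B, hB, hmax⟩ := exists_max_image 𝒮 card h𝒮
  simp only [𝒮, mem_filter, mem_univ, true_and] at hB
  obtain ⟨hBc, hAB, hBH, hBne⟩ := hB
  obtain ⟨a, ha, w, hw, hwB, haw⟩ := hH.2 B hBH hBc.1 hBne
  have hins := hBc.insert ha haw
  have heq : insert w B = H := by
    by_contra hcon
    have := hmax (insert w B) (by
      simp only [𝒮, mem_filter, mem_univ, true_and]
      exact ⟨hins, hAB.trans (subset_insert _ _), insert_subset hw hBH, hcon⟩)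
    rw [card_insert_of_notMem hwB] at this
    omega
  refine ⟨w, hw, fun h => hwB (hAB h), ?_⟩
  rw [← heq, erase_insert hwB]
  exact hBc

/-- T5: connected sets of every size between -/
lemma exists_size {C A : Finset V} (hC : CS G C) (hA : CS G A) (hAC : A ⊆ C) {s : ℕ}
    (h1 : A.card ≤ s) (h2 : s ≤ C.card) : ∃ H, CS G H ∧ A ⊆ H ∧ H ⊆ C ∧ H.card = s := by
  obtain ⟨k, hk⟩ := Nat.exists_eq_add_of_le h2
  induction k generalizing s with
  | zero => exact ⟨C, hC, hAC, subset_rfl, by omega⟩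
  | succ k ih =>
    obtain ⟨H, hH, hAH, hHC, hHs⟩ := ih (s := s + 1) (by omega) (by omega) (by omega)
    have hne : A ≠ H := by
      intro he
      rw [he] at h1
      omega
    obtain ⟨v, hv, hvA, hvc⟩ := exists_removable hH hA hAH hne
    refine ⟨H.erase v, hvc, ?_, (erase_subset _ _).trans hHC, ?_⟩
    · intro a ha
      exact mem_erase.mpr ⟨fun h => hvA (h ▸ ha), hAH ha⟩
    · rw [card_erase_of_mem hv]; omega

/-- two distinct removable vertices different from `x` -/
lemma two_removable {H : Finset V} (hH : CS G H) {x y z : V} (hx : x ∈ H) (hy : y ∈ H)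
    (hz : z ∈ H) (hxy : G.Adj x y) (hxz : G.Adj x z) (hyz : y ≠ z) :
    ∃ a ∈ H, ∃ b ∈ H, a ≠ x ∧ b ≠ x ∧ a ≠ b ∧ CS G (H.erase a) ∧ CS G (H.erase b) := by
  have hxs : ({x} : Finset V) ≠ H := by
    intro h
    rw [← h] at hy
    exact hxy.ne (mem_singleton.mp hy).symm
  obtain ⟨a, ha, hax, hac⟩ := exists_removable hH (CS_singleton x) (singleton_subset_iff.mpr hx) hxs
  have hax' : a ≠ x := fun h => hax (mem_singleton.mpr h)
  -- a connected proper subset containing x and a
  have key : ∃ A : Finset V, CS G A ∧ A ⊆ H ∧ A ≠ H ∧ x ∈ A ∧ a ∈ A := by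
    let 𝒮 : Finset (Finset V) := univ.filter (fun B => CS G B ∧ a ∈ B ∧ B ⊆ H.erase x)
    have h𝒮 : 𝒮.Nonempty := ⟨{a}, by
      simp only [𝒮, mem_filter, mem_univ, true_and]
      exact ⟨CS_singleton a, mem_singleton_self a,
        singleton_subset_iff.mpr (mem_erase.mpr ⟨hax', ha⟩)⟩⟩
    obtain ⟨Q, hQ, hmax⟩ := exists_max_image 𝒮 card h𝒮
    simp only [𝒮, mem_filter, mem_univ, true_and] at hQ
    obtain ⟨hQc, haQ, hQH⟩ := hQ
    have hxQ : x ∉ Q := fun h => (mem_erase.mp (hQH h)).1 rfl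
    have hQH' : Q ⊆ H := hQH.trans (erase_subset _ _)
    have hQne : Q ≠ H := fun h => hxQ (h ▸ hx)
    obtain ⟨q, hq, w, hw, hwQ, hqw⟩ := hH.2 Q hQH' hQc.1 hQne
    have hwx : w = x := by
      by_contra hwx
      have := hmax (insert w Q) (by
        simp only [𝒮, mem_filter, mem_univ, true_and]
        exact ⟨hQc.insert hq hqw, mem_insert_of_mem haQ,
          insert_subset (mem_erase.mpr ⟨hwx, hw⟩) hQH⟩)
      rw [card_insert_of_notMem hwQ] at this
      omega
    subst hwx
    by_cases hfull : insert w Q = H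
    · -- Q = H \ {x}
      have hyQ : y ∈ Q := by
        rw [← hfull] at hy
        rcases mem_insert.mp hy with h | h
        · exact absurd h hxy.ne'
        · exact h
      have hzQ : z ∈ Q := by
        rw [← hfull] at hz
        rcases mem_insert.mp hz with h | h
        · exact absurd h hxz.ne'
        · exact h
      have haQ' : ({a} : Finset V) ≠ Q := by
        intro h
        rw [← h, mem_singleton] at hyQ hzQ
        exact hyz (hyQ.trans hzQ.symm)
      obtain ⟨v, hv, hva, hvc⟩ := exists_removable hQc (CS_singleton a)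
        (singleton_subset_iff.mpr haQ) haQ'
      have hva' : a ≠ v := fun h => hva (mem_singleton.mpr h.symm)
      have : ∃ t ∈ Q.erase v, G.Adj w t := by
        by_cases hyv : y = v
        · exact ⟨z, mem_erase.mpr ⟨fun h => hyz (hyv.trans h.symm), hzQ⟩, hxz⟩
        · exact ⟨y, mem_erase.mpr ⟨hyv, hyQ⟩, hxy⟩
      obtain ⟨t, ht, hwt⟩ := this
      refine ⟨insert w (Q.erase v), hvc.insert ht hwt.symm, ?_, ?_, mem_insert_self _ _,
        mem_insert_of_mem (mem_erase.mpr ⟨hva', haQ⟩)⟩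
      · rw [← hfull]
        exact insert_subset_insert _ (erase_subset _ _)
      · intro h
        have h1 : v ∈ insert w (Q.erase v) := by rw [h]; exact hQH' hv
        rcases mem_insert.mp h1 with h2 | h2
        · exact hxQ (h2 ▸ hv)
        · exact (mem_erase.mp h2).1 rfl
    · exact ⟨insert w Q, hQc.insert hq hqw, insert_subset hx hQH', hfull, mem_insert_self _ _,
        mem_insert_of_mem haQ⟩
  obtain ⟨A, hA, hAH, hAne, hxA, haA⟩ := key
  obtain ⟨b, hb, hbA, hbc⟩ := exists_removable hH hA hAH hAne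
  exact ⟨a, ha, b, hb, hax', fun h => hbA (h ▸ hxA), fun h => hbA (h ▸ haA), hac, hbc⟩

end Pool.Agent.H606AC
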