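import Pool.Agent.H606AC.Main

set_option autoImplicit false

open Finset Classical

namespace Pool.Agent.H606AC

variable {V : Type} [Fintype V] {G : SimpleGraph V}

noncomputable def CC (G : SimpleGraph V) : Finset (Finset V) := univ.filter (fun W => CS G W)

lemma mem_CC {W : Finset V} : W ∈ CC G ↔ CS G W := by simp [CC]

noncomputable def II (G : SimpleGraph V) (W : Finset V) : Finset V :=
  W.filter (fun v => CS G (W.erase v))
noncomputable def KK (G : SimpleGraph V) (W : Finset V) : Finset V :=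
  W.filter (fun v => ¬ CS G (W.erase v))
noncomputable def OO (G : SimpleGraph V) (W : Finset V) : Finset V :=
  (Wᶜ).filter (fun v => CS G (insert v W))
noncomputable def FF (G : SimpleGraph V) (W : Finset V) : Finset V :=
  (Wᶜ).filter (fun v => ¬ CS G (insert v W))

lemma mem_II {W : Finset V} {v : V} : v ∈ II G W ↔ v ∈ W ∧ CS G (W.erase v) := by simp [II]
lemma mem_KK {W : Finset V} {v : V} : v ∈ KK G W ↔ v ∈ W ∧ ¬ CS G (W.erase v) := by simp [KK]
lemma mem_OO {W : Finset V} {v : V} : v ∈ OO G W ↔ v ∉ W ∧ CS G (insert v W) := by simp [OO]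
lemma mem_FF {W : Finset V} {v : V} : v ∈ FF G W ↔ v ∉ W ∧ ¬ CS G (insert v W) := by simp [FF]

lemma card_IK (W : Finset V) : (II G W).card + (KK G W).card = W.card := by
  rw [II, KK]
  exact card_filter_add_card_filter_not _

lemma card_OF (W : Finset V) : (OO G W).card + (FF G W).card = (Wᶜ).card := by
  rw [OO, FF]
  exact card_filter_add_card_filter_not _

lemma sum_IO : ∑ W ∈ CC G, (II G W).card = ∑ W ∈ CC G, (OO G W).card := by
  rw [← card_sigma, ← card_sigma]
  refine card_bij' (fun p _ => ⟨p.1.erase p.2, p.2⟩) (fun p _ => ⟨insert p.2 p.1, p.2⟩)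
    ?_ ?_ ?_ ?_
  · rintro ⟨W, v⟩ hp
    rw [mem_sigma] at hp ⊢
    obtain ⟨hW, hv⟩ := hp
    simp only [mem_CC, mem_II] at hW hv
    simp only [mem_CC, mem_OO]
    refine ⟨hv.2, notMem_erase _ _, ?_⟩
    rw [insert_erase hv.1]
    exact hW
  · rintro ⟨W, v⟩ hp
    rw [mem_sigma] at hp ⊢
    obtain ⟨hW, hv⟩ := hp
    simp only [mem_CC, mem_OO] at hW hv
    simp only [mem_CC, mem_II]
    refine ⟨hv.2, mem_insert_self _ _, ?_⟩
    rw [erase_insert hv.1]
    exact hW
  · rintro ⟨W, v⟩ hp
    rw [mem_sigma] at hp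
    obtain ⟨hW, hv⟩ := hp
    simp only [mem_II] at hv
    simp only [insert_erase hv.1]
  · rintro ⟨W, v⟩ hp
    rw [mem_sigma] at hp
    obtain ⟨hW, hv⟩ := hp
    simp only [mem_OO] at hv
    simp only [erase_insert hv.1]

lemma FF_sub {W : Finset V} (hW : CS G W) : FF G W ⊆ RR G W := by
  intro v hv
  rw [mem_FF] at hv
  rw [mem_RR]
  refine ⟨hv.1, ?_⟩
  intro b hb hbv
  exact hv.2 (hW.insert hb hbv)

noncomputable def PT (G : SimpleGraph V) : Finset (Finset V × V) :=
  univ.filter (fun p => CS G p.1 ∧ p.2 ∈ p.1 ∧ ¬ CS G (p.1.erase p.2) ∧ 2 ≤ p.1.card)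

noncomputable def KP (G : SimpleGraph V) : Finset (Finset V × V) :=
  univ.filter (fun p => CS G p.1 ∧ p.2 ∈ p.1 ∧ ¬ CS G (p.1.erase p.2))

lemma mem_PT {p : Finset V × V} : p ∈ PT G ↔
    CS G p.1 ∧ p.2 ∈ p.1 ∧ ¬ CS G (p.1.erase p.2) ∧ 2 ≤ p.1.card := by simp [PT]
lemma mem_KP {p : Finset V × V} : p ∈ KP G ↔
    CS G p.1 ∧ p.2 ∈ p.1 ∧ ¬ CS G (p.1.erase p.2) := by simp [KP]

lemma sum_K : ∑ W ∈ CC G, (KK G W).card = (KP G).card := by
  rw [← card_sigma]
  refine card_bij' (fun p _ => (p.1, p.2)) (fun p _ => ⟨p.1, p.2⟩) ?_ ?_ ?_ ?_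
  · rintro ⟨W, v⟩ hp
    rw [mem_sigma, mem_CC, mem_KK] at hp
    rw [mem_KP]
    exact hp
  · rintro ⟨W, v⟩ hp
    rw [mem_KP] at hp
    rw [mem_sigma, mem_CC, mem_KK]
    exact hp
  · rintro ⟨W, v⟩ _
    rfl
  · rintro ⟨W, v⟩ _
    rfl

lemma KP_ge : Fintype.card V + (PT G).card ≤ (KP G).card := by
  have hinj : Function.Injective (fun v : V => (({v} : Finset V), v)) := by
    intro a b h
    exact (Prod.ext_iff.mp h).2
  have h1 : (univ.image (fun v : V => (({v} : Finset V), v))).card = Fintype.card V := by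
    rw [card_image_of_injective _ hinj, card_univ]
  have hdis : Disjoint (univ.image (fun v : V => (({v} : Finset V), v))) (PT G) := by
    rw [disjoint_left]
    intro p hp hp'
    rw [mem_image] at hp
    obtain ⟨v, _, rfl⟩ := hp
    rw [mem_PT] at hp'
    have := hp'.2.2.2
    simp at this
  rw [← h1, ← card_union_of_disjoint hdis]
  apply card_le_card
  apply union_subset
  · intro p hp
    rw [mem_image] at hp
    obtain ⟨v, _, rfl⟩ := hp
    rw [mem_KP]
    refine ⟨CS_singleton v, mem_singleton_self v, ?_⟩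
    intro h
    have := h.1
    simp at this
  · intro p hp
    rw [mem_PT] at hp
    rw [mem_KP]
    exact ⟨hp.1, hp.2.1, hp.2.2.1⟩

noncomputable def QS (G : SimpleGraph V) : Finset (Finset V × (Finset V × V)) :=
  univ.filter (fun q => CS G q.1 ∧ q.2 ∈ QQ G q.1)

lemma mem_QS {q : Finset V × (Finset V × V)} : q ∈ QS G ↔ CS G q.1 ∧ q.2 ∈ QQ G q.1 := by
  simp [QS]

lemma sum_Q : ∑ W ∈ CC G, (QQ G W).card = (QS G).card := by
  rw [← card_sigma]
  refine card_bij' (fun p _ => (p.1, p.2)) (fun p _ => ⟨p.1, p.2⟩) ?_ ?_ ?_ ?_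
  · rintro ⟨W, v⟩ hp
    rw [mem_sigma, mem_CC] at hp
    rw [mem_QS]
    exact hp
  · rintro ⟨W, v⟩ hp
    rw [mem_QS] at hp
    rw [mem_sigma, mem_CC]
    exact hp
  · rintro ⟨W, v⟩ _
    rfl
  · rintro ⟨W, v⟩ _
    rfl

/-- structure of an element of QS -/
lemma QS_struct {A B : Finset V} {u : V} (h : (B, (A, u)) ∈ QS G) :
    CS G A ∧ CS G B ∧ Disjoint A B ∧ (∀ a ∈ A, ∀ b ∈ B, ¬ G.Adj a b) ∧ u ∉ A ∧ u ∉ B ∧
    (∃ a ∈ A, G.Adj a u) ∧ (∃ b ∈ B, G.Adj b u) := by
  rw [mem_QS, mem_QQ] at h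
  obtain ⟨hB, hA, hAR, huD, hau⟩ := h
  simp only at hB hA hAR huD hau
  rw [mem_DD] at huD
  refine ⟨hA, hB, ?_, ?_, ?_, huD.1, hau, huD.2⟩
  · rw [disjoint_left]
    intro a ha hb
    exact (mem_RR.mp (hAR ha)).1 hb
  · intro a ha b hb hab
    exact (mem_RR.mp (hAR ha)).2 b hb hab.symm
  · intro hu
    obtain ⟨b, hb, hbu⟩ := huD.2
    exact (mem_RR.mp (hAR hu)).2 b hb hbu

lemma QS_erase {A B : Finset V} {u : V} (hA : u ∉ A) (hB : u ∉ B) :
    (insert u (A ∪ B)).erase u = A ∪ B := by
  apply erase_insert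
  intro h
  rcases mem_union.mp h with h | h
  · exact hA h
  · exact hB h

lemma QS_le : (QS G).card ≤ 2 * (PT G).card := by
  let f : Finset V × (Finset V × V) → Finset V × V := fun q => (insert q.2.2 (q.2.1 ∪ q.1), q.2.2)
  apply card_le_mul_card_image_of_maps_to (f := f)
  · rintro ⟨B, A, u⟩ hq
    obtain ⟨hA, hB, hd, hn, huA, huB, ⟨a, ha, hau⟩, ⟨b, hb, hbu⟩⟩ := QS_struct hq
    simp only [f]
    rw [mem_PT]
    simp only
    refine ⟨?_, mem_insert_self _ _, ?_, ?_⟩
    · have h1 := hA.insert ha hau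
      have h2 := h1.union hB (mem_insert_self u A) hb hbu.symm
      rwa [insert_union] at h2
    · rw [QS_erase huA huB]
      exact not_CS_of_sep hA.1 hB.1 hd hn
    · have h1 : 1 ≤ (A ∪ B).card := card_pos.mpr ⟨a, mem_union_left _ ha⟩
      rw [card_insert_of_notMem]
      · omega
      · intro h
        rcases mem_union.mp h with h | h
        · exact huA h
        · exact huB h
  · rintro ⟨W, u⟩ _
    rcases ((QS G).filter (fun q => f q = (W, u))).eq_empty_or_nonempty with he | ⟨q0, hq0⟩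
    · rw [he]; simp
    · obtain ⟨B0, A0, u0⟩ := q0
      rw [mem_filter] at hq0
      obtain ⟨hq0, hf0⟩ := hq0
      simp only [f, Prod.mk.injEq] at hf0
      obtain ⟨hW, hu0⟩ := hf0
      subst hu0
      obtain ⟨hA0, hB0, hd0, hn0, huA0, huB0, _, _⟩ := QS_struct hq0
      have hsub : (QS G).filter (fun q => f q = (W, u0)) ⊆
          ({(B0, (A0, u0)), (A0, (B0, u0))} : Finset (Finset V × (Finset V × V))) := by
        rintro ⟨B, A, u⟩ hq
        rw [mem_filter] at hq
        obtain ⟨hq, hf⟩ := hq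
        simp only [f, Prod.mk.injEq] at hf
        obtain ⟨hW', hu⟩ := hf
        subst hu
        obtain ⟨hA, hB, hd, hn, huA, huB, _, _⟩ := QS_struct hq
        have hun : A ∪ B = A0 ∪ B0 := by
          rw [← QS_erase huA huB, ← QS_erase huA0 huB0, hW', hW]
        have hn0' : ∀ a ∈ B0, ∀ b ∈ A0, ¬ G.Adj a b := fun a ha b hb hab => hn0 b hb a ha hab.symm
        have hn' : ∀ a ∈ B, ∀ b ∈ A, ¬ G.Adj a b := fun a ha b hb hab => hn b hb a ha hab.symm
        have hA_sub : A ⊆ A0 ∪ B0 := by rw [← hun]; exact subset_union_left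
        have hB_sub : B ⊆ A0 ∪ B0 := by rw [← hun]; exact subset_union_right
        have hA0_sub : A0 ⊆ A ∪ B := by rw [hun]; exact subset_union_left
        have hB0_sub : B0 ⊆ A ∪ B := by rw [hun]; exact subset_union_right
        obtain ⟨a, ha⟩ := hA.1
        rw [mem_insert, mem_singleton]
        rcases mem_union.mp (hA_sub ha) with h | h
        · left
          have h1 : A ⊆ A0 := hA.sub_of_sep hA_sub hn0 ⟨a, mem_inter.mpr ⟨ha, h⟩⟩
          have h2 : A0 ⊆ A := hA0.sub_of_sep hA0_sub hn ⟨a, mem_inter.mpr ⟨h, ha⟩⟩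
          have hAe : A = A0 := subset_antisymm h1 h2
          have hBe : B = B0 := by
            subst hAe
            ext v
            constructor
            · intro hv
              rcases mem_union.mp (hB_sub hv) with h3 | h3
              · exact absurd hv (disjoint_left.mp hd h3)
              · exact h3
            · intro hv
              rcases mem_union.mp (hB0_sub hv) with h3 | h3
              · exact absurd hv (disjoint_left.mp hd0 h3)
              · exact h3
          rw [hAe, hBe]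
        · right
          have h1 : A ⊆ B0 := hA.sub_of_sep (by rwa [union_comm]) hn0'
            ⟨a, mem_inter.mpr ⟨ha, h⟩⟩
          have h2 : B0 ⊆ A := hB0.sub_of_sep hB0_sub hn ⟨a, mem_inter.mpr ⟨h, ha⟩⟩
          have hAe : A = B0 := subset_antisymm h1 h2
          have hBe : B = A0 := by
            subst hAe
            ext v
            constructor
            · intro hv
              rcases mem_union.mp (hB_sub hv) with h3 | h3
              · exact h3
              · exact absurd hv (disjoint_left.mp hd h3)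
            · intro hv
              rcases mem_union.mp (hA0_sub hv) with h3 | h3
              · exact absurd h3 (disjoint_left.mp hd0 hv)
              · exact h3
          rw [hAe, hBe]
      exact (card_le_card hsub).trans card_le_two

lemma main_nat (hG : CS G univ) (hdeg : ∀ v : V, 3 ≤ (univ.filter (G.Adj v)).card) :
    Fintype.card V * (CC G).card + Fintype.card V ≤ 2 * ∑ W ∈ CC G, W.card := by
  have hS : ∑ W ∈ CC G, W.card = ∑ W ∈ CC G, (II G W).card + ∑ W ∈ CC G, (KK G W).card := by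
    rw [← sum_add_distrib]
    exact sum_congr rfl (fun W _ => (card_IK W).symm)
  have hN : Fintype.card V * (CC G).card =
      ∑ W ∈ CC G, W.card + (∑ W ∈ CC G, (OO G W).card + ∑ W ∈ CC G, (FF G W).card) := by
    rw [← sum_add_distrib, ← sum_add_distrib, mul_comm, ← smul_eq_mul, ← sum_const]
    refine sum_congr rfl (fun W _ => ?_)
    rw [card_OF, card_add_card_compl]
  have hIO := sum_IO (G := G)
  have hK := sum_K (G := G)
  have hKP := KP_ge (G := G)
  have hQ := sum_Q (G := G)
  have hQS := QS_le (G := G)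
  have hF : 2 * ∑ W ∈ CC G, (FF G W).card ≤ ∑ W ∈ CC G, (QQ G W).card := by
    rw [mul_sum]
    refine sum_le_sum (fun W hW => ?_)
    have hWc := mem_CC.mp hW
    exact (Nat.mul_le_mul_left 2 (card_le_card (FF_sub hWc))).trans (QQ_bound hG hdeg hWc.1)
  omega

end Pool.Agent.H606AC
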