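import Pool.Agent.H606AC.Basic

set_option autoImplicit false

open Finset Classical

namespace Pool.Agent.H606AC

variable {V : Type} [Fintype V] {G : SimpleGraph V}

/-- connected sets containing `x` inside `C` -/
noncomputable def fam (G : SimpleGraph V) (C : Finset V) (x : V) : Finset (Finset V) :=
  univ.filter (fun A => CS G A ∧ x ∈ A ∧ A ⊆ C)

noncomputable def cs (G : SimpleGraph V) (C : Finset V) (x : V) (s : ℕ) : ℕ :=
  ((fam G C x).filter (fun A => A.card = s)).card

lemma mem_fam {C A : Finset V} {x : V} : A ∈ fam G C x ↔ CS G A ∧ x ∈ A ∧ A ⊆ C := by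
  simp [fam]

lemma fam_card (C : Finset V) (x : V) :
    (fam G C x).card = ∑ s ∈ Icc 1 C.card, cs G C x s := by
  unfold cs
  apply card_eq_sum_card_fiberwise
  intro A hA
  have hA' := mem_fam.mp (mem_coe.mp hA)
  have : 0 < A.card := card_pos.mpr ⟨x, hA'.2.1⟩
  have h2 := card_le_card hA'.2.2
  simp only [coe_Icc, Set.mem_Icc]
  omega

lemma sum_aux (c e : ℕ → ℕ) (r : ℕ) (hr : 1 ≤ r)
    (h : ∀ s ∈ Icc 1 r, 2 + e s ≤ c s + (if s = 1 then 1 else 0) + (if s = r then 1 else 0)) :
    2 * r + ∑ s ∈ Icc 1 r, e s ≤ ∑ s ∈ Icc 1 r, c s + 2 := by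
  have h1 := sum_le_sum h
  rw [sum_add_distrib, sum_add_distrib, sum_add_distrib] at h1
  simp only [sum_const, Nat.card_Icc, smul_eq_mul, sum_ite_eq', mem_Icc, le_refl, true_and, hr,
    and_true, if_true] at h1
  have : (r + 1 - 1) * 2 = 2 * r := by omega
  omega

lemma cs_ge_one {C : Finset V} (hC : CS G C) {x : V} (hx : x ∈ C) {s : ℕ} (h1 : 1 ≤ s)
    (h2 : s ≤ C.card) : 1 ≤ cs G C x s := by
  obtain ⟨H, hH, hxH, hHC, hHs⟩ := exists_size hC (CS_singleton x) (singleton_subset_iff.mpr hx)
    (s := s) (by simpa using h1) h2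
  exact card_pos.mpr ⟨H, mem_filter.mpr ⟨mem_fam.mpr ⟨hH, hxH (mem_singleton_self x), hHC⟩, hHs⟩⟩

lemma CS_pair {x y : V} (h : G.Adj x y) : CS G (insert y {x}) :=
  (CS_singleton x).insert (mem_singleton_self x) h

lemma cs_ge_two {C : Finset V} (hC : CS G C) {x y z : V} (hx : x ∈ C) (hy : y ∈ C) (hz : z ∈ C)
    (hxy : G.Adj x y) (hxz : G.Adj x z) (hyz : y ≠ z) {s : ℕ} (h1 : 2 ≤ s)
    (h2 : s + 1 ≤ C.card) : 2 ≤ cs G C x s := by
  have h3 : CS G (insert z (insert y {x})) :=
    (CS_pair hxy).insert (mem_insert_of_mem (mem_singleton_self x)) hxz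
  have hcard : (insert z (insert y ({x} : Finset V))).card = 3 := by
    rw [card_insert_of_notMem, card_insert_of_notMem, card_singleton]
    · simpa using hxy.ne'
    · simp only [mem_insert, mem_singleton, not_or]
      exact ⟨hyz.symm, hxz.ne'⟩
  obtain ⟨H, hH, hAH, hHC, hHs⟩ := exists_size hC h3 (by
    intro v hv
    simp only [mem_insert, mem_singleton] at hv
    rcases hv with rfl | rfl | rfl <;> assumption) (s := s + 1) (by omega) h2
  have hxH : x ∈ H := hAH (by simp)
  have hyH : y ∈ H := hAH (by simp)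
  have hzH : z ∈ H := hAH (by simp)
  obtain ⟨a, ha, b, hb, hax, hbx, hab, hac, hbc⟩ := two_removable hH hxH hyH hzH hxy hxz hyz
  have hsub : ({H.erase a, H.erase b} : Finset (Finset V)) ⊆
      (fam G C x).filter (fun A => A.card = s) := by
    intro A hA
    simp only [mem_insert, mem_singleton] at hA
    rw [mem_filter, mem_fam]
    rcases hA with rfl | rfl
    · exact ⟨⟨hac, mem_erase.mpr ⟨hax.symm, hxH⟩, (erase_subset _ _).trans hHC⟩,
        by rw [card_erase_of_mem ha]; omega⟩
    · exact ⟨⟨hbc, mem_erase.mpr ⟨hbx.symm, hxH⟩, (erase_subset _ _).trans hHC⟩,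
        by rw [card_erase_of_mem hb]; omega⟩
  have hne : H.erase a ≠ H.erase b := by
    intro h
    have : a ∈ H.erase b := mem_erase.mpr ⟨hab, ha⟩
    rw [← h] at this
    exact (mem_erase.mp this).1 rfl
  calc 2 = ({H.erase a, H.erase b} : Finset (Finset V)).card := (card_pair hne).symm
    _ ≤ _ := card_le_card hsub

lemma fam_ge_A {C : Finset V} (hC : CS G C) {x y z : V} (hx : x ∈ C) (hy : y ∈ C) (hz : z ∈ C)
    (hxy : G.Adj x y) (hxz : G.Adj x z) (hyz : y ≠ z) :
    2 * C.card ≤ (fam G C x).card + 2 := by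
  have hr : 1 ≤ C.card := card_pos.mpr ⟨x, hx⟩
  have := sum_aux (cs G C x) (fun _ => 0) C.card hr (by
    intro s hs
    rw [mem_Icc] at hs
    have h1 := cs_ge_one hC hx hs.1 hs.2
    by_cases hs1 : s = 1
    · simp only [hs1] at h1 ⊢
      simp
      omega
    · by_cases hs2 : s = C.card
      · simp only [hs2] at h1 ⊢
        simp
        omega
      · have := cs_ge_two hC hx hy hz hxy hxz hyz (s := s) (by omega) (by omega)
        simp [hs1, hs2]
        omega)
  rw [fam_card]
  simpa using this

lemma fam_ge_aux {C : Finset V} (hC : CS G C) {x y z : V} (hx : x ∈ C) (hy : y ∈ C) (hz : z ∈ C)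
    (hxy : G.Adj x y) (hxz : G.Adj x z) (hyz : y ≠ z) {i : ℕ} (hi : 2 ≤ i)
    (hi2 : i + 2 ≤ C.card) (h3 : 3 ≤ cs G C x i) (h4 : 3 ≤ cs G C x (i + 1)) :
    2 * C.card ≤ (fam G C x).card := by
  have hr : 1 ≤ C.card := card_pos.mpr ⟨x, hx⟩
  have := sum_aux (cs G C x) (fun s => (if s = i then 1 else 0) + (if s = i + 1 then 1 else 0))
    C.card hr (by
    intro s hs
    rw [mem_Icc] at hs
    have h1 := cs_ge_one hC hx hs.1 hs.2
    have hA : s = i → 3 ≤ cs G C x s := fun h => h ▸ h3
    have hB : s = i + 1 → 3 ≤ cs G C x s := fun h => h ▸ h4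
    have hC' : 2 ≤ s → s + 1 ≤ C.card → 2 ≤ cs G C x s :=
      fun h5 h6 => cs_ge_two hC hx hy hz hxy hxz hyz h5 h6
    beta_reduce
    split_ifs <;> omega)
  rw [fam_card]
  have e : ∑ s ∈ Icc 1 C.card, ((if s = i then 1 else 0) + (if s = i + 1 then 1 else 0)) = 2 := by
    rw [sum_add_distrib]
    simp only [sum_ite_eq', mem_Icc]
    rw [if_pos (by omega), if_pos (by omega)]
  rw [e] at this
  omega

lemma cs_ge_three {C A₁ A₂ A₃ : Finset V} {x : V} {s : ℕ} (h₁ : CS G A₁ ∧ x ∈ A₁ ∧ A₁ ⊆ C)
    (h₂ : CS G A₂ ∧ x ∈ A₂ ∧ A₂ ⊆ C) (h₃ : CS G A₃ ∧ x ∈ A₃ ∧ A₃ ⊆ C)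
    (c₁ : A₁.card = s) (c₂ : A₂.card = s) (c₃ : A₃.card = s)
    (h12 : A₁ ≠ A₂) (h13 : A₁ ≠ A₃) (h23 : A₂ ≠ A₃) : 3 ≤ cs G C x s := by
  unfold cs
  refine two_lt_card.mpr ⟨A₁, ?_, A₂, ?_, A₃, ?_, h12, h13, h23⟩
  · exact mem_filter.mpr ⟨mem_fam.mpr h₁, c₁⟩
  · exact mem_filter.mpr ⟨mem_fam.mpr h₂, c₂⟩
  · exact mem_filter.mpr ⟨mem_fam.mpr h₃, c₃⟩

lemma ne_of_mem_notMem' {A B : Finset V} {v : V} (h1 : v ∈ A) (h2 : v ∉ B) : A ≠ B :=
  fun h => h2 (h ▸ h1)

lemma fam_ge_B {C : Finset V} (hC : CS G C) {x : V} (hx : x ∈ C)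
    (hx2 : 2 ≤ (C.filter (G.Adj x)).card)
    (hdeg : ∀ v ∈ C, v ≠ x → 3 ≤ (C.filter (G.Adj v)).card) :
    2 * C.card ≤ (fam G C x).card := by
  by_cases h3 : 3 ≤ (C.filter (G.Adj x)).card
  · obtain ⟨y, hy, z, hz, w, hw, hyz, hyw, hzw⟩ := two_lt_card.mp h3
    rw [mem_filter] at hy hz hw
    obtain ⟨hyC, hxy⟩ := hy
    obtain ⟨hzC, hxz⟩ := hz
    obtain ⟨hwC, hxw⟩ := hw
    have hcard4 : 4 ≤ C.card := by
      have : (insert w (insert z (insert y ({x} : Finset V)))).card = 4 := by
        rw [card_insert_of_notMem, card_insert_of_notMem, card_insert_of_notMem, card_singleton]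
        · simpa using hxy.ne'
        · simp only [mem_insert, mem_singleton, not_or]; exact ⟨hyz.symm, hxz.ne'⟩
        · simp only [mem_insert, mem_singleton, not_or]; exact ⟨hzw.symm, hyw.symm, hxw.ne'⟩
      rw [← this]
      apply card_le_card
      intro v hv
      simp only [mem_insert, mem_singleton] at hv
      rcases hv with rfl | rfl | rfl | rfl <;> assumption
    have pairs : ∀ {u v : V}, u ∈ C → v ∈ C → G.Adj x u → G.Adj x v → u ≠ v →
        (CS G (insert v (insert u {x})) ∧ x ∈ insert v (insert u ({x} : Finset V)) ∧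
          insert v (insert u {x}) ⊆ C) ∧ (insert v (insert u ({x} : Finset V))).card = 3 := by
      intro u v hu hv hxu hxv huv
      refine ⟨⟨(CS_pair hxu).insert (mem_insert_of_mem (mem_singleton_self x)) hxv, by simp, ?_⟩, ?_⟩
      · intro t ht
        simp only [mem_insert, mem_singleton] at ht
        rcases ht with rfl | rfl | rfl <;> assumption
      · rw [card_insert_of_notMem, card_insert_of_notMem, card_singleton]
        · simpa using hxu.ne'
        · simp only [mem_insert, mem_singleton, not_or]; exact ⟨huv.symm, hxv.ne'⟩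
    have singles : ∀ {u : V}, u ∈ C → G.Adj x u →
        (CS G (insert u {x}) ∧ x ∈ insert u ({x} : Finset V) ∧
          insert u {x} ⊆ C) ∧ (insert u ({x} : Finset V)).card = 2 := by
      intro u hu hxu
      refine ⟨⟨CS_pair hxu, by simp, ?_⟩, ?_⟩
      · intro t ht
        simp only [mem_insert, mem_singleton] at ht
        rcases ht with rfl | rfl <;> assumption
      · rw [card_insert_of_notMem, card_singleton]
        simpa using hxu.ne'
    apply fam_ge_aux hC hx hyC hzC hxy hxz hyz (i := 2) le_rfl hcard4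
    · refine cs_ge_three (singles hyC hxy).1 (singles hzC hxz).1 (singles hwC hxw).1
        (singles hyC hxy).2 (singles hzC hxz).2 (singles hwC hxw).2
        (ne_of_mem_notMem' (v := y) (by simp) ?_) (ne_of_mem_notMem' (v := y) (by simp) ?_)
        (ne_of_mem_notMem' (v := z) (by simp) ?_)
      · simp only [mem_insert, mem_singleton, not_or]; exact ⟨hyz, hxy.ne'⟩
      · simp only [mem_insert, mem_singleton, not_or]; exact ⟨hyw, hxy.ne'⟩
      · simp only [mem_insert, mem_singleton, not_or]; exact ⟨hzw, hxz.ne'⟩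
    · refine cs_ge_three (pairs hyC hzC hxy hxz hyz).1 (pairs hyC hwC hxy hxw hyw).1
        (pairs hzC hwC hxz hxw hzw).1
        (pairs hyC hzC hxy hxz hyz).2 (pairs hyC hwC hxy hxw hyw).2
        (pairs hzC hwC hxz hxw hzw).2
        (ne_of_mem_notMem' (v := z) (by simp) ?_) (ne_of_mem_notMem' (v := y) (by simp) ?_)
        (ne_of_mem_notMem' (v := y) (by simp) ?_)
      · simp only [mem_insert, mem_singleton, not_or]; exact ⟨hzw, hyz.symm, hxz.ne'⟩
      · simp only [mem_insert, mem_singleton, not_or]; exact ⟨hyw, hyz, hxy.ne'⟩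
      · simp only [mem_insert, mem_singleton, not_or]; exact ⟨hyw, hyz, hxy.ne'⟩
  · have h2 : (C.filter (G.Adj x)).card = 2 := by omega
    obtain ⟨y, z, hyz, hNx⟩ := card_eq_two.mp h2
    have hy : y ∈ C.filter (G.Adj x) := by rw [hNx]; simp
    have hz : z ∈ C.filter (G.Adj x) := by rw [hNx]; simp
    rw [mem_filter] at hy hz
    obtain ⟨hyC, hxy⟩ := hy
    obtain ⟨hzC, hxz⟩ := hz
    have hNx' : ∀ v ∈ C, G.Adj x v → v = y ∨ v = z := by
      intro v hv hxv
      have : v ∈ C.filter (G.Adj x) := mem_filter.mpr ⟨hv, hxv⟩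
      rw [hNx] at this
      simpa using this
    have pick : ∀ v ∈ C, v ≠ x → ∀ p q : V, ∃ w ∈ C, G.Adj v w ∧ w ≠ p ∧ w ≠ q := by
      intro v hv hvx p q
      by_contra hcon
      push Not at hcon
      have : C.filter (G.Adj v) ⊆ {p, q} := by
        intro w hw
        rw [mem_filter] at hw
        simp only [mem_insert, mem_singleton]
        by_cases hwp : w = p
        · exact Or.inl hwp
        · exact Or.inr (hcon w hw.1 hw.2 hwp)
      have h5 := card_le_card this
      have h6 := hdeg v hv hvx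
      have h7 := card_le_two (a := p) (b := q)
      omega
    have hyx : y ≠ x := hxy.ne'
    have hzx : z ≠ x := hxz.ne'
    obtain ⟨w, hwC, hyw, hwx, hwz⟩ := pick y hyC hyx x z
    obtain ⟨w', hwC', hzw', hwx', hwy'⟩ := pick z hzC hzx x y
    obtain ⟨t, htC, hwt, hty, htz⟩ := pick w hwC hwx y z
    obtain ⟨t', htC', hwt', hty', htz'⟩ := pick w' hwC' hwx' y z
    have hwy : w ≠ y := hyw.ne'
    have hwz' : w' ≠ z := hzw'.ne'
    have htx : t ≠ x := by
      intro h
      subst h
      rcases hNx' w hwC hwt.symm with h | h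
      · exact hwy h
      · exact hwz h
    have htx' : t' ≠ x := by
      intro h
      subst h
      rcases hNx' w' hwC' hwt'.symm with h | h
      · exact hwy' h
      · exact hwz' h
    have htw : t ≠ w := hwt.ne'
    have htw' : t' ≠ w' := hwt'.ne'
    have hcard5 : 5 ≤ C.card := by
      have : (insert t (insert w (insert z (insert y ({x} : Finset V))))).card = 5 := by
        rw [card_insert_of_notMem, card_insert_of_notMem, card_insert_of_notMem,
          card_insert_of_notMem, card_singleton]
        · simpa using hyx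
        · simp only [mem_insert, mem_singleton, not_or]; exact ⟨hyz.symm, hzx⟩
        · simp only [mem_insert, mem_singleton, not_or]; exact ⟨hwz, hwy, hwx⟩
        · simp only [mem_insert, mem_singleton, not_or]; exact ⟨htw, htz, hty, htx⟩
      rw [← this]
      apply card_le_card
      intro v hv
      simp only [mem_insert, mem_singleton] at hv
      rcases hv with rfl | rfl | rfl | rfl | rfl <;> assumption
    apply fam_ge_aux hC hx hyC hzC hxy hxz hyz (i := 3) (by norm_num) hcard5
    · -- {x,y,z}, {x,y,w}, {x,z,w'}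
      refine cs_ge_three (A₁ := insert z (insert y {x})) (A₂ := insert w (insert y {x}))
        (A₃ := insert w' (insert z {x})) ⟨?_, by simp, ?_⟩ ⟨?_, by simp, ?_⟩ ⟨?_, by simp, ?_⟩
        ?_ ?_ ?_ (ne_of_mem_notMem' (v := z) (by simp) ?_) (ne_of_mem_notMem' (v := y) (by simp) ?_)
        (ne_of_mem_notMem' (v := y) (by simp) ?_)
      · exact (CS_pair hxy).insert (mem_insert_of_mem (mem_singleton_self x)) hxz
      · intro v hv
        simp only [mem_insert, mem_singleton] at hv
        rcases hv with rfl | rfl | rfl <;> assumption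
      · exact (CS_pair hxy).insert (mem_insert_self _ _) hyw
      · intro v hv
        simp only [mem_insert, mem_singleton] at hv
        rcases hv with rfl | rfl | rfl <;> assumption
      · exact (CS_pair hxz).insert (mem_insert_self _ _) hzw'
      · intro v hv
        simp only [mem_insert, mem_singleton] at hv
        rcases hv with rfl | rfl | rfl <;> assumption
      · rw [card_insert_of_notMem, card_insert_of_notMem, card_singleton]
        · simpa using hyx
        · simp only [mem_insert, mem_singleton, not_or]; exact ⟨hyz.symm, hzx⟩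
      · rw [card_insert_of_notMem, card_insert_of_notMem, card_singleton]
        · simpa using hyx
        · simp only [mem_insert, mem_singleton, not_or]; exact ⟨hwy, hwx⟩
      · rw [card_insert_of_notMem, card_insert_of_notMem, card_singleton]
        · simpa using hzx
        · simp only [mem_insert, mem_singleton, not_or]; exact ⟨hwz', hwx'⟩
      · simp only [mem_insert, mem_singleton, not_or]; exact ⟨hwz.symm, hyz.symm, hzx⟩
      · simp only [mem_insert, mem_singleton, not_or]; exact ⟨hwy'.symm, hyz, hyx⟩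
      · simp only [mem_insert, mem_singleton, not_or]; exact ⟨hwy'.symm, hyz, hyx⟩
    · -- {x,y,z,w}, {x,y,w,t}, {x,z,w',t'}
      refine cs_ge_three (A₁ := insert z (insert w (insert y {x})))
        (A₂ := insert t (insert w (insert y {x})))
        (A₃ := insert t' (insert w' (insert z {x}))) ⟨?_, by simp, ?_⟩ ⟨?_, by simp, ?_⟩
        ⟨?_, by simp, ?_⟩
        ?_ ?_ ?_ (ne_of_mem_notMem' (v := z) (by simp) ?_) (ne_of_mem_notMem' (v := y) (by simp) ?_)
        (ne_of_mem_notMem' (v := y) (by simp) ?_)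
      · exact ((CS_pair hxy).insert (mem_insert_self _ _) hyw).insert (by simp) hxz
      · intro v hv
        simp only [mem_insert, mem_singleton] at hv
        rcases hv with rfl | rfl | rfl | rfl <;> assumption
      · exact ((CS_pair hxy).insert (mem_insert_self _ _) hyw).insert (mem_insert_self _ _) hwt
      · intro v hv
        simp only [mem_insert, mem_singleton] at hv
        rcases hv with rfl | rfl | rfl | rfl <;> assumption
      · exact ((CS_pair hxz).insert (mem_insert_self _ _) hzw').insert (mem_insert_self _ _) hwt'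
      · intro v hv
        simp only [mem_insert, mem_singleton] at hv
        rcases hv with rfl | rfl | rfl | rfl <;> assumption
      · rw [card_insert_of_notMem, card_insert_of_notMem, card_insert_of_notMem, card_singleton]
        · simpa using hyx
        · simp only [mem_insert, mem_singleton, not_or]; exact ⟨hwy, hwx⟩
        · simp only [mem_insert, mem_singleton, not_or]; exact ⟨hwz.symm, hyz.symm, hzx⟩
      · rw [card_insert_of_notMem, card_insert_of_notMem, card_insert_of_notMem, card_singleton]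
        · simpa using hyx
        · simp only [mem_insert, mem_singleton, not_or]; exact ⟨hwy, hwx⟩
        · simp only [mem_insert, mem_singleton, not_or]; exact ⟨htw, hty, htx⟩
      · rw [card_insert_of_notMem, card_insert_of_notMem, card_insert_of_notMem, card_singleton]
        · simpa using hzx
        · simp only [mem_insert, mem_singleton, not_or]; exact ⟨hwz', hwx'⟩
        · simp only [mem_insert, mem_singleton, not_or]; exact ⟨htw', htz', htx'⟩
      · simp only [mem_insert, mem_singleton, not_or]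
        exact ⟨htz.symm, hwz.symm, hyz.symm, hzx⟩
      · simp only [mem_insert, mem_singleton, not_or]
        exact ⟨hty'.symm, hwy'.symm, hyz, hyx⟩
      · simp only [mem_insert, mem_singleton, not_or]
        exact ⟨hty'.symm, hwy'.symm, hyz, hyx⟩

end Pool.Agent.H606AC
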