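import Pool.Agent.H606AC.Fam

set_option autoImplicit false

open Finset Classical

namespace Pool.Agent.H606AC

variable {V : Type} [Fintype V] {G : SimpleGraph V}

/-- outer boundary -/
noncomputable def DD (G : SimpleGraph V) (B : Finset V) : Finset V :=
  univ.filter (fun u => u ∉ B ∧ ∃ b ∈ B, G.Adj b u)

/-- far vertices -/
noncomputable def RR (G : SimpleGraph V) (B : Finset V) : Finset V :=
  univ.filter (fun v => v ∉ B ∧ ∀ b ∈ B, ¬ G.Adj b v)

/-- pairs (A, u): A connected and far from B, u a common neighbour -/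
noncomputable def QQ (G : SimpleGraph V) (B : Finset V) : Finset (Finset V × V) :=
  univ.filter (fun p => CS G p.1 ∧ p.1 ⊆ RR G B ∧ p.2 ∈ DD G B ∧ ∃ a ∈ p.1, G.Adj a p.2)

lemma mem_DD {B : Finset V} {u : V} : u ∈ DD G B ↔ u ∉ B ∧ ∃ b ∈ B, G.Adj b u := by simp [DD]
lemma mem_RR {B : Finset V} {v : V} : v ∈ RR G B ↔ v ∉ B ∧ ∀ b ∈ B, ¬ G.Adj b v := by simp [RR]
lemma mem_QQ {B : Finset V} {p : Finset V × V} : p ∈ QQ G B ↔
    CS G p.1 ∧ p.1 ⊆ RR G B ∧ p.2 ∈ DD G B ∧ ∃ a ∈ p.1, G.Adj a p.2 := by simp [QQ]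

lemma comp_bound (hG : CS G univ) (hdeg : ∀ v : V, 3 ≤ (univ.filter (G.Adj v)).card)
    {B C : Finset V} (hB : B.Nonempty) (hC : CS G C) (hCR : C ⊆ RR G B)
    (hcl : ∀ c ∈ C, ∀ v ∈ RR G B, G.Adj c v → v ∈ C) :
    2 * C.card ≤ ((QQ G B).filter (fun p => p.1 ⊆ C)).card := by
  have hnb : ∀ c ∈ C, ∀ v, G.Adj c v → v ∈ C ∨ v ∈ DD G B := by
    intro c hc v hcv
    by_cases hvR : v ∈ RR G B
    · exact Or.inl (hcl c hc v hvR hcv)
    · right
      have hcR := mem_RR.mp (hCR hc)
      have hvB : v ∉ B := fun h => hcR.2 v h hcv.symm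
      rw [mem_DD]
      refine ⟨hvB, ?_⟩
      by_contra hcon
      push Not at hcon
      exact hvR (mem_RR.mpr ⟨hvB, hcon⟩)
  have hd : ∀ c ∈ C, 3 ≤ (C.filter (G.Adj c)).card + ((DD G B).filter (G.Adj c)).card := by
    intro c hc
    refine (hdeg c).trans ((card_le_card ?_).trans (card_union_le _ _))
    intro v hv
    have hcv := (mem_filter.mp hv).2
    rcases hnb c hc v hcv with h | h
    · exact mem_union_left _ (mem_filter.mpr ⟨h, hcv⟩)
    · exact mem_union_right _ (mem_filter.mpr ⟨h, hcv⟩)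
  have hex : ∃ x ∈ C, ∃ u ∈ DD G B, G.Adj x u := by
    obtain ⟨b, hb⟩ := hB
    have hCne : C ≠ univ := by
      intro h
      have : b ∈ C := by rw [h]; exact mem_univ b
      exact (mem_RR.mp (hCR this)).1 hb
    obtain ⟨x, hx, v, _, hvC, hxv⟩ := hG.2 C (subset_univ _) hC.1 hCne
    rcases hnb x hx v hxv with h | h
    · exact absurd h hvC
    · exact ⟨x, hx, v, h, hxv⟩
  by_cases hcase : ∃ x ∈ C, 2 ≤ ((DD G B).filter (G.Adj x)).card
  · obtain ⟨x, hx, h2⟩ := hcase
    obtain ⟨u₁, hu₁, u₂, hu₂, hne⟩ := one_lt_card.mp h2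
    rw [mem_filter] at hu₁ hu₂
    have hfam : C.card ≤ (fam G C x).card := by
      rw [fam_card]
      calc C.card = ∑ s ∈ Icc 1 C.card, 1 := by simp
        _ ≤ _ := sum_le_sum (fun s hs => by
          rw [mem_Icc] at hs
          exact cs_ge_one hC hx hs.1 hs.2)
    have hsub : (fam G C x) ×ˢ ({u₁, u₂} : Finset V) ⊆ (QQ G B).filter (fun p => p.1 ⊆ C) := by
      rintro ⟨A, u⟩ hp
      rw [mem_product] at hp
      obtain ⟨hA, hu⟩ := hp
      obtain ⟨hA1, hA2, hA3⟩ := mem_fam.mp hA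
      simp only [mem_insert, mem_singleton] at hu
      rw [mem_filter, mem_QQ]
      refine ⟨⟨hA1, hA3.trans hCR, ?_, x, hA2, ?_⟩, hA3⟩
      · rcases hu with rfl | rfl
        · exact hu₁.1
        · exact hu₂.1
      · rcases hu with rfl | rfl
        · exact hu₁.2
        · exact hu₂.2
    have h3 := card_le_card hsub
    rw [card_product, card_pair hne] at h3
    omega
  · push Not at hcase
    obtain ⟨x, hx, u, hu, hxu⟩ := hex
    let 𝓕 : Finset (Finset V) := univ.filter (fun A => CS G A ∧ A ⊆ C ∧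
      ∃ a ∈ A, ∃ u ∈ DD G B, G.Adj a u)
    have h𝓕 : 𝓕.card ≤ ((QQ G B).filter (fun p => p.1 ⊆ C)).card := by
      have hsub : 𝓕 ⊆ ((QQ G B).filter (fun p => p.1 ⊆ C)).image Prod.fst := by
        intro A hA
        simp only [𝓕, mem_filter, mem_univ, true_and] at hA
        obtain ⟨hA1, hA2, a, ha, w, hw, haw⟩ := hA
        rw [mem_image]
        exact ⟨(A, w), mem_filter.mpr ⟨mem_QQ.mpr ⟨hA1, hA2.trans hCR, hw, a, ha, haw⟩, hA2⟩, rfl⟩
      exact (card_le_card hsub).trans card_image_le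
    refine le_trans ?_ h𝓕
    have hfamsub : fam G C x ⊆ 𝓕 := by
      intro A hA
      obtain ⟨hA1, hA2, hA3⟩ := mem_fam.mp hA
      simp only [𝓕, mem_filter, mem_univ, true_and]
      exact ⟨hA1, hA3, x, hA2, u, hu, hxu⟩
    have hdx : 2 ≤ (C.filter (G.Adj x)).card := by
      have := hd x hx
      have := hcase x hx
      omega
    by_cases h2a : ∃ x' ∈ C, x' ≠ x ∧ ∃ u' ∈ DD G B, G.Adj x' u'
    · obtain ⟨x', hx', hne, u', hu', hxu'⟩ := h2a
      have hdx' : 2 ≤ (C.filter (G.Adj x')).card := by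
        have := hd x' hx'
        have := hcase x' hx'
        omega
      obtain ⟨y, hy, z, hz, hyz⟩ := one_lt_card.mp hdx
      rw [mem_filter] at hy hz
      have h5 := fam_ge_A hC hx hy.1 hz.1 hy.2 hz.2 hyz
      have : ∃ t ∈ C, G.Adj x' t ∧ t ≠ x := by
        obtain ⟨p, hp, q, hq, hpq⟩ := one_lt_card.mp hdx'
        rw [mem_filter] at hp hq
        by_cases hpx : p = x
        · exact ⟨q, hq.1, hq.2, fun h => hpq (hpx.trans h.symm)⟩
        · exact ⟨p, hp.1, hp.2, hpx⟩
      obtain ⟨t, ht, hxt, htx⟩ := this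
      have hne2 : ({x'} : Finset V) ≠ insert t {x'} := by
        intro h
        have h1 := congrArg card h
        rw [card_insert_of_notMem (by simpa using hxt.ne'), card_singleton] at h1
        omega
      have hdisj : Disjoint (fam G C x) ({{x'}, insert t {x'}} : Finset (Finset V)) := by
        rw [disjoint_right]
        intro A hA hA'
        have hxA := (mem_fam.mp hA').2.1
        simp only [mem_insert, mem_singleton] at hA
        rcases hA with rfl | rfl
        · exact hne (mem_singleton.mp hxA).symm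
        · simp only [mem_insert, mem_singleton] at hxA
          rcases hxA with h | h
          · exact htx h.symm
          · exact hne h.symm
      have hsub2 : fam G C x ∪ ({{x'}, insert t {x'}} : Finset (Finset V)) ⊆ 𝓕 := by
        apply union_subset hfamsub
        intro A hA
        simp only [mem_insert, mem_singleton] at hA
        simp only [𝓕, mem_filter, mem_univ, true_and]
        rcases hA with rfl | rfl
        · exact ⟨CS_singleton x', singleton_subset_iff.mpr hx', x', mem_singleton_self _, u', hu',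
            hxu'⟩
        · refine ⟨CS_pair hxt, ?_, x', by simp, u', hu', hxu'⟩
          intro v hv
          simp only [mem_insert, mem_singleton] at hv
          rcases hv with rfl | rfl <;> assumption
      have h6 := card_le_card hsub2
      rw [card_union_of_disjoint hdisj, card_pair hne2] at h6
      omega
    · push Not at h2a
      refine le_trans (fam_ge_B hC hx hdx ?_) (card_le_card hfamsub)
      intro v hv hvx
      have h1 := hd v hv
      have h2 : ((DD G B).filter (G.Adj v)).card = 0 := by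
        rw [card_eq_zero, filter_eq_empty_iff]
        intro w hw
        exact h2a v hv hvx w hw
      omega

lemma QQ_bound (hG : CS G univ) (hdeg : ∀ v : V, 3 ≤ (univ.filter (G.Adj v)).card)
    {B : Finset V} (hB : B.Nonempty) : 2 * (RR G B).card ≤ (QQ G B).card := by
  let 𝒦 : Finset (Finset V) := univ.filter (fun C => CS G C ∧ C ⊆ RR G B ∧
    ∀ c ∈ C, ∀ v ∈ RR G B, G.Adj c v → v ∈ C)
  have hcover : RR G B ⊆ 𝒦.biUnion id := by
    intro v hv
    let 𝒮 : Finset (Finset V) := univ.filter (fun C => CS G C ∧ v ∈ C ∧ C ⊆ RR G B)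
    have h𝒮 : 𝒮.Nonempty := ⟨{v}, by
      simp only [𝒮, mem_filter, mem_univ, true_and]
      exact ⟨CS_singleton v, mem_singleton_self v, singleton_subset_iff.mpr hv⟩⟩
    obtain ⟨C, hCm, hmax⟩ := exists_max_image 𝒮 card h𝒮
    simp only [𝒮, mem_filter, mem_univ, true_and] at hCm
    obtain ⟨hC, hvC, hCR⟩ := hCm
    rw [mem_biUnion]
    refine ⟨C, ?_, hvC⟩
    simp only [𝒦, mem_filter, mem_univ, true_and]
    refine ⟨hC, hCR, ?_⟩
    intro c hc w hw hcw
    by_contra hwC
    have := hmax (insert w C) (by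
      simp only [𝒮, mem_filter, mem_univ, true_and]
      exact ⟨hC.insert hc hcw, mem_insert_of_mem hvC, insert_subset hw hCR⟩)
    rw [card_insert_of_notMem hwC] at this
    omega
  have hdis : ∀ C ∈ 𝒦, ∀ C' ∈ 𝒦, (C ∩ C').Nonempty → C ⊆ C' := by
    intro C hC C' hC' hne
    simp only [𝒦, mem_filter, mem_univ, true_and] at hC hC'
    by_contra hcon
    have hne' : C ∩ C' ≠ C := fun h => hcon (inter_eq_left.mp h)
    obtain ⟨a, ha, b, hb, hbX, hab⟩ := hC.1.2 (C ∩ C') inter_subset_left hne hne'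
    exact hbX (mem_inter.mpr ⟨hb, hC'.2.2 a (mem_inter.mp ha).2 b (hC.2.1 hb) hab⟩)
  have h1 : (RR G B).card ≤ ∑ C ∈ 𝒦, C.card := by
    refine (card_le_card hcover).trans ?_
    exact card_biUnion_le
  have h2 : ∑ C ∈ 𝒦, ((QQ G B).filter (fun p => p.1 ⊆ C)).card ≤ (QQ G B).card := by
    rw [← card_biUnion]
    · apply card_le_card
      intro p hp
      rw [mem_biUnion] at hp
      obtain ⟨C, _, hp⟩ := hp
      exact (mem_filter.mp hp).1
    · intro C hC C' hC' hne
      rw [Function.onFun, disjoint_left]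
      intro p hp hp'
      have h3 := (mem_filter.mp hp).2
      have h4 := (mem_filter.mp hp').2
      have hpn := (mem_QQ.mp (mem_filter.mp hp).1).1.1
      obtain ⟨a, ha⟩ := hpn
      apply hne
      apply subset_antisymm
      · exact hdis C hC C' hC' ⟨a, mem_inter.mpr ⟨h3 ha, h4 ha⟩⟩
      · exact hdis C' hC' C hC ⟨a, mem_inter.mpr ⟨h4 ha, h3 ha⟩⟩
  calc 2 * (RR G B).card ≤ 2 * ∑ C ∈ 𝒦, C.card := Nat.mul_le_mul_left 2 h1
    _ = ∑ C ∈ 𝒦, 2 * C.card := by rw [mul_sum]
    _ ≤ ∑ C ∈ 𝒦, ((QQ G B).filter (fun p => p.1 ⊆ C)).card := sum_le_sum (fun C hC => by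
        simp only [𝒦, mem_filter, mem_univ, true_and] at hC
        exact comp_bound hG hdeg hB hC.1 hC.2.1 hC.2.2)
    _ ≤ _ := h2

end Pool.Agent.H606AC
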